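import Mathlib

/-!
Akbari, Etesami, Mahini and Mahmoody asked whether every optimal edge-colouring of the complete
graph on `n` vertices, for every `n` at least 5, contains a rainbow cycle of length `n - 2`.
The answer is no, for `n = 2 ^ k` and for `n = 2 ^ k - 1`, for every `k` at least 3.
-/

open Finset

namespace Pool.Agent.Results.MP_4bc86c_co.NoRainbowNSubTwo

/-- An edge-colouring of the complete graph on `Fin n` is given by a map on unordered pairs
(its values on the diagonal pairs are never used).  It is proper when two distinct edges that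
share a vertex get different colours. -/
def Proper {n : ℕ} (c : Sym2 (Fin n) → ℕ) : Prop :=
  ∀ x y z : Fin n, x ≠ y → x ≠ z → y ≠ z → c s(x, y) ≠ c s(x, z)

/-- The set of colours used on the edges of the complete graph. -/
def Used {n : ℕ} (c : Sym2 (Fin n) → ℕ) : Set ℕ :=
  c '' (⊤ : SimpleGraph (Fin n)).edgeSet

/-- Optimal: proper, and using the minimum possible number of colours. -/
def Optimal {n : ℕ} (c : Sym2 (Fin n) → ℕ) : Prop :=
  Proper c ∧ ∀ c' : Sym2 (Fin n) → ℕ, Proper c' → (Used c).ncard ≤ (Used c').ncard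

/-- The colouring `c` has a rainbow cycle of length `l`. -/
def HasRainbowCycle {n : ℕ} (c : Sym2 (Fin n) → ℕ) (l : ℕ) : Prop :=
  ∃ (v : Fin n) (p : (⊤ : SimpleGraph (Fin n)).Walk v v),
    p.IsCycle ∧ p.length = l ∧ (p.edges.map c).Nodup

/-! ### Elementary abelian 2-groups -/

section Group

variable {k : ℕ}

/-- characteristic two -/
lemma add_self' (x : Fin k → ZMod 2) : x + x = 0 := by
  funext i
  exact CharTwo.add_self_eq_zero (x i)

lemma add_eq_zero' {x y : Fin k → ZMod 2} : x + y = 0 ↔ x = y := by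
  constructor
  · intro h
    have : x + y + y = y := by rw [h, zero_add]
    rwa [add_assoc, add_self', add_zero] at this
  · rintro rfl
    exact add_self' _

lemma sum_all (hk : 2 ≤ k) : ∑ v : Fin k → ZMod 2, v = 0 := by
  funext i
  rw [Finset.sum_apply, Pi.zero_apply]
  obtain ⟨j, hj⟩ : ∃ j : Fin k, j ≠ i := by
    have : Nontrivial (Fin k) := Fin.nontrivial_iff_two_le.mpr hk
    exact exists_ne i
  refine Finset.sum_involution (fun v _ => v + (Pi.single j 1 : Fin k → ZMod 2)) ?_ ?_ ?_ ?_
  · intro v _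
    have : (Pi.single j (1 : ZMod 2) : Fin k → ZMod 2) i = 0 := by
      rw [Pi.single_apply, if_neg (Ne.symm hj)]
    simp only [Pi.add_apply, this, add_zero]
    exact CharTwo.add_self_eq_zero (v i)
  · intro v _ _ h
    have h1 := congrFun h j
    simp at h1
  · intro v _
    exact mem_univ _
  · intro v _
    rw [add_assoc, add_self', add_zero]

end Group

/-! ### The sum of the colours along a closed walk -/

/-- colour of a pair of vertices through a labelling `f` of the vertices -/
def grp {n k : ℕ} (f : Fin n → (Fin k → ZMod 2)) : Sym2 (Fin n) → (Fin k → ZMod 2) :=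
  Sym2.lift ⟨fun x y => f x + f y, fun _ _ => add_comm _ _⟩

@[simp] lemma grp_mk {n k : ℕ} (f : Fin n → (Fin k → ZMod 2)) (x y : Fin n) :
    grp f s(x, y) = f x + f y := rfl

lemma sum_walk {n k : ℕ} (f : Fin n → (Fin k → ZMod 2)) {u v : Fin n}
    (p : (⊤ : SimpleGraph (Fin n)).Walk u v) :
    (p.edges.map (grp f)).sum = f u + f v := by
  induction p with
  | nil => simp [add_self']
  | cons h p ih =>
    rw [SimpleGraph.Walk.edges_cons, List.map_cons, List.sum_cons, ih, grp_mk]
    rw [add_assoc, ← add_assoc (f _) (f _) (f _), add_self', zero_add]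

/-! ### Lower bounds for the number of colours of a proper colouring -/

lemma used_finite {n : ℕ} (c : Sym2 (Fin n) → ℕ) : (Used c).Finite :=
  (Set.toFinite _).image _

lemma le_used {n : ℕ} (c : Sym2 (Fin n) → ℕ) (hc : Proper c) : n - 1 ≤ (Used c).ncard := by
  rcases Nat.eq_zero_or_pos n with rfl | hn
  · simp
  · let x : Fin n := ⟨0, hn⟩
    have h1 : ((univ.erase x).image (fun y => c s(x, y)) : Finset ℕ).card = n - 1 := by
      rw [card_image_of_injOn, card_erase_of_mem (mem_univ _), card_univ, Fintype.card_fin]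
      intro y hy z hz hyz
      by_contra hne
      rw [mem_coe, mem_erase] at hy hz
      exact hc x y z (Ne.symm hy.1) (Ne.symm hz.1) hne hyz
    rw [← h1, ← Set.ncard_coe_finset]
    refine Set.ncard_le_ncard ?_ (used_finite c)
    intro a ha
    rw [mem_coe, mem_image] at ha
    obtain ⟨y, hy, rfl⟩ := ha
    rw [mem_erase] at hy
    exact ⟨s(x, y), by simpa using Ne.symm hy.1, rfl⟩

lemma exists_missing {n : ℕ} (hodd : Odd n) (c : Sym2 (Fin n) → ℕ) (hc : Proper c) (a : ℕ) :
    ∃ x : Fin n, ∀ y : Fin n, x ≠ y → c s(x, y) ≠ a := by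
  by_contra hcon
  push Not at hcon
  choose g hg1 hg2 using hcon
  have hinv : ∀ x, g (g x) = x := by
    intro x
    by_contra hne
    refine hc (g x) x (g (g x)) (Ne.symm (hg1 x)) (hg1 (g x)) (Ne.symm hne) ?_
    rw [hg2 (g x), Sym2.eq_swap, hg2 x]
  have h0 : ∑ _x : Fin n, (1 : ZMod 2) = 0 := by
    refine Finset.sum_involution (fun x _ => g x) ?_ ?_ ?_ ?_
    · intro x _
      exact CharTwo.add_self_eq_zero 1
    · intro x _ _ h
      exact hg1 x h.symm
    · intro x _
      exact mem_univ _
    · intro x _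
      exact hinv x
  rw [Finset.sum_const, card_univ, Fintype.card_fin, nsmul_eq_mul, mul_one,
    ZMod.natCast_eq_zero_iff_even] at h0
  exact (Nat.not_even_iff_odd.mpr hodd) h0

lemma le_used_odd {n : ℕ} (hodd : Odd n) (hn : 2 ≤ n) (c : Sym2 (Fin n) → ℕ) (hc : Proper c) :
    n ≤ (Used c).ncard := by
  classical
  let x0 : Fin n := ⟨0, by omega⟩
  let x1 : Fin n := ⟨1, by omega⟩
  have h01 : x0 ≠ x1 := by
    intro h
    have := congrArg Fin.val h
    simp [x0, x1] at this
  obtain ⟨x, hx⟩ := exists_missing hodd c hc (c s(x0, x1))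
  have h1 : ((univ.erase x).image (fun y => c s(x, y)) : Finset ℕ).card = n - 1 := by
    rw [card_image_of_injOn, card_erase_of_mem (mem_univ _), card_univ, Fintype.card_fin]
    intro y hy z hz hyz
    by_contra hne
    rw [mem_coe, mem_erase] at hy hz
    exact hc x y z (Ne.symm hy.1) (Ne.symm hz.1) hne hyz
  have h2 : (insert (c s(x0, x1)) ((univ.erase x).image (fun y => c s(x, y))) : Finset ℕ).card
      = n := by
    rw [card_insert_of_notMem, h1]
    · omega
    · intro hmem
      rw [mem_image] at hmem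
      obtain ⟨y, hy, hy2⟩ := hmem
      rw [mem_erase] at hy
      exact hx y (Ne.symm hy.1) hy2
  refine h2.symm.le.trans ?_
  rw [← Set.ncard_coe_finset]
  refine Set.ncard_le_ncard ?_ (used_finite c)
  intro a ha
  rw [mem_coe, mem_insert, mem_image] at ha
  rcases ha with rfl | ⟨y, hy, rfl⟩
  · exact ⟨s(x0, x1), by simpa using h01, rfl⟩
  · rw [mem_erase] at hy
    exact ⟨s(x, y), by simpa using Ne.symm hy.1, rfl⟩

/-! ### The colouring -/

/-- an injective encoding of the colours as natural numbers -/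
noncomputable def enc (k : ℕ) : (Fin k → ZMod 2) → ℕ :=
  fun v => (Fintype.equivFin (Fin k → ZMod 2) v : ℕ)

lemma enc_injective (k : ℕ) : Function.Injective (enc k) := by
  intro v w h
  exact (Fintype.equivFin (Fin k → ZMod 2)).injective (Fin.ext h)

/-- the colouring of the complete graph on `Fin n` -/
noncomputable def col {n k : ℕ} (f : Fin n → (Fin k → ZMod 2)) : Sym2 (Fin n) → ℕ :=
  fun e => enc k (grp f e)

lemma col_proper {n k : ℕ} {f : Fin n → (Fin k → ZMod 2)} (hf : Function.Injective f) :
    Proper (col f) := by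
  intro x y z _ _ hyz h
  have h1 := enc_injective k h
  rw [grp_mk, grp_mk] at h1
  exact hyz (hf (add_left_cancel h1))

lemma grp_ne_zero {n k : ℕ} {f : Fin n → (Fin k → ZMod 2)} (hf : Function.Injective f)
    {e : Sym2 (Fin n)} (he : e ∈ (⊤ : SimpleGraph (Fin n)).edgeSet) : grp f e ≠ 0 := by
  induction e with
  | h x y =>
    rw [grp_mk]
    intro h
    rw [add_eq_zero'] at h
    have : x ≠ y := by simpa using he
    exact this (hf h)

lemma card_V (k : ℕ) : Fintype.card (Fin k → ZMod 2) = 2 ^ k := by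
  simp [ZMod.card]

lemma used_col {n k : ℕ} {f : Fin n → (Fin k → ZMod 2)} (hf : Function.Injective f) :
    (Used (col f)).ncard ≤ 2 ^ k - 1 := by
  classical
  have hsub : Used (col f) ⊆ ((univ.erase (0 : Fin k → ZMod 2)).image (enc k) : Finset ℕ) := by
    rintro a ⟨e, he, rfl⟩
    rw [mem_coe, mem_image]
    exact ⟨grp f e, mem_erase.mpr ⟨grp_ne_zero hf he, mem_univ _⟩, rfl⟩
  refine (Set.ncard_le_ncard hsub (Finset.finite_toSet _)).trans ?_
  rw [Set.ncard_coe_finset, card_image_of_injective _ (enc_injective k),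
    card_erase_of_mem (mem_univ _), card_univ, card_V]

lemma no_rainbow {n k : ℕ} (hk : 2 ≤ k) {f : Fin n → (Fin k → ZMod 2)}
    (hf : Function.Injective f) (hn : n = 2 ^ k ∨ n = 2 ^ k - 1) :
    ¬ HasRainbowCycle (col f) (n - 2) := by
  classical
  rintro ⟨v, p, hp, hlen, hnd⟩
  have h2k : 2 ^ 2 ≤ 2 ^ k := Nat.pow_le_pow_right (by norm_num) hk
  have hnd' : (p.edges.map (grp f)).Nodup := by
    have : p.edges.map (col f) = (p.edges.map (grp f)).map (enc k) := by
      rw [List.map_map]
      rfl
    rw [this] at hnd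
    exact List.Nodup.of_map _ hnd
  set T : Finset (Fin k → ZMod 2) := (p.edges.map (grp f)).toFinset with hT
  have hTcard : T.card = n - 2 := by
    rw [hT, List.toFinset_card_of_nodup hnd', List.length_map, SimpleGraph.Walk.length_edges, hlen]
  have hTsum : ∑ x ∈ T, x = 0 := by
    have := List.sum_toFinset (fun x : Fin k → ZMod 2 => x) hnd'
    rw [hT, this, List.map_id', sum_walk, add_self']
  have hT0 : (0 : Fin k → ZMod 2) ∉ T := by
    rw [hT, List.mem_toFinset, List.mem_map]
    rintro ⟨e, he, he0⟩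
    exact grp_ne_zero hf (SimpleGraph.Walk.edges_subset_edgeSet p he) he0
  set R : Finset (Fin k → ZMod 2) := univ \ insert 0 T with hR
  have hRsum : ∑ x ∈ R, x = 0 := by
    have h1 := Finset.sum_sdiff (f := fun x : Fin k → ZMod 2 => x) (subset_univ (insert 0 T))
    rw [sum_insert hT0, hTsum, add_zero, add_zero, sum_all hk] at h1
    exact h1
  have hRcard : R.card = 2 ^ k - (n - 1) := by
    rw [hR, card_sdiff_of_subset (subset_univ _), card_univ, card_V, card_insert_of_notMem hT0,
      hTcard]
    omega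
  have hR0 : (0 : Fin k → ZMod 2) ∉ R := by
    rw [hR, mem_sdiff]
    intro h
    exact h.2 (mem_insert_self _ _)
  rcases hn with hn | hn
  · have hc1 : R.card = 1 := by omega
    obtain ⟨m, hm⟩ := card_eq_one.mp hc1
    rw [hm, sum_singleton] at hRsum
    apply hR0
    rw [hm, hRsum]
    exact mem_singleton_self _
  · have hc1 : R.card = 2 := by omega
    obtain ⟨m1, m2, hne, hm⟩ := card_eq_two.mp hc1
    rw [hm, sum_pair hne, add_eq_zero'] at hRsum
    exact hne hRsum

lemma exists_labelling {n k : ℕ} (hn : n ≤ 2 ^ k) :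
    ∃ f : Fin n → (Fin k → ZMod 2), Function.Injective f := by
  have h : Fintype.card (Fin n) ≤ Fintype.card (Fin k → ZMod 2) := by
    rw [Fintype.card_fin, card_V]
    exact hn
  obtain ⟨e⟩ := Function.Embedding.nonempty_of_card_le h
  exact ⟨e, e.injective⟩

/-- The question (for every `n` at least 5, every optimal edge-colouring of the complete graph on
`n` vertices has a rainbow cycle of length `n - 2`) has a negative answer; more precisely there is
an optimal edge-colouring without a rainbow cycle of length `n - 2` whenever `n` is `2 ^ k` or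
`2 ^ k - 1` with `k` at least 3. -/
theorem result :
    (¬ ∀ n : ℕ, 5 ≤ n → ∀ c : Sym2 (Fin n) → ℕ, Optimal c → HasRainbowCycle c (n - 2)) ∧
    (∀ k n : ℕ, 3 ≤ k → (n = 2 ^ k ∨ n = 2 ^ k - 1) →
      ∃ c : Sym2 (Fin n) → ℕ, Optimal c ∧ ¬ HasRainbowCycle c (n - 2)) := by
  have main : ∀ k n : ℕ, 3 ≤ k → (n = 2 ^ k ∨ n = 2 ^ k - 1) →
      ∃ c : Sym2 (Fin n) → ℕ, Optimal c ∧ ¬ HasRainbowCycle c (n - 2) := by
    intro k n hk hn
    have h8 : 2 ^ 3 ≤ 2 ^ k := Nat.pow_le_pow_right (by norm_num) hk
    obtain ⟨f, hf⟩ := exists_labelling (n := n) (k := k) (by omega)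
    refine ⟨col f, ⟨col_proper hf, ?_⟩, no_rainbow (by omega) hf hn⟩
    intro c' hc'
    refine (used_col hf).trans ?_
    rcases hn with hn | hn
    · have := le_used c' hc'
      omega
    · have hodd : Odd n := by
        rw [hn]
        obtain ⟨j, rfl⟩ : ∃ j, k = j + 1 := ⟨k - 1, by omega⟩
        refine ⟨2 ^ j - 1, ?_⟩
        have : 1 ≤ 2 ^ j := Nat.one_le_two_pow
        rw [pow_succ]
        omega
      have := le_used_odd hodd (by omega) c' hc'
      omega
  refine ⟨?_, main⟩
  intro h
  obtain ⟨c, hc, hno⟩ := main 3 8 le_rfl (Or.inl (by norm_num))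
  exact hno (h 8 (by norm_num) c hc)

end Pool.Agent.Results.MP_4bc86c_co.NoRainbowNSubTwo
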